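import Pool.Agent.H.MP_779522_an.A

set_option autoImplicit false

open MeasureTheory Set
open scoped ENNReal NNReal

namespace Pool.Agent.Results.MP_779522_an.No

noncomputable def Av {X : Type*} (T : Equiv.Perm X) (P : Polynomial ℤ) (f g : X → ℝ) (x : X)
    (N : ℝ) : ℝ :=
  (1 / (⌊N⌋₊ : ℝ)) * ∑ n ∈ Finset.Icc 1 ⌊N⌋₊, f ((T ^ n) x) * g ((T ^ P.eval (n : ℤ)) x)

noncomputable def Var (r : ℝ) (D : Set ℝ) (a : ℝ → ℝ) : ℝ≥0∞ :=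
  (⨆ N ∈ D, ‖a N‖ₑ) + ⨆ (k : ℕ) (N : Fin (k + 1) → ℝ) (_ : StrictMono N) (_ : ∀ j, N j ∈ D),
    (∑ j : Fin k, ‖a (N j.succ) - a (N j.castSucc)‖ₑ ^ r) ^ (1 / r)

def Lac (l : ℝ) (D : Set ℝ) : Prop := D ⊆ Ici 1 ∧ ∀ N ∈ D, ∀ N' ∈ D, N < N' → l * N ≤ N'

theorem result (p r l : ℝ) (hp : 1 < p) (hr : 0 < r) :
    MeasurePreserving (Equiv.addRight (1 : ℤ)) Measure.count Measure.count ∧
    ¬ ∃ C : ℝ≥0, ∀ D, Lac l D → ∀ f g : ℤ → ℝ,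
      MemLp f (ENNReal.ofReal p) Measure.count → MemLp g ∞ Measure.count →
      (∫⁻ x, Var r D (Av (Equiv.addRight 1) (Polynomial.X ^ 2) f g x) ^ p ∂Measure.count) ^ (1 / p)
        ≤ C * eLpNorm f (ENNReal.ofReal p) Measure.count * eLpNorm g ∞ Measure.count :=
  ⟨measurePreserving_add_right Measure.count 1, Pool.Agent.H.MP_779522_an.main p r l hp hr⟩

end Pool.Agent.Results.MP_779522_an.No
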